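import Pool.Agent.H505R4.FourMain

set_option autoImplicit false

namespace Pool.Agent.Results.MP_bf63dc_nt.EvenRoughSolutions

open Classical in
/-- Part 1 (the equation `p - 4 q = c`): for every `ε > 0` there are `η > 0` and `X₀` such that for
every set `S` of natural numbers (for instance of primes), every `X ≥ X₀` and every odd multiple
`c ≤ X ^ η` of `3` at least `X ^ (1 / 2 - ε)` integers `1 ≤ q ≤ X` are such that all prime factors
of `q` and of `p = 4 q + c` are larger than `X ^ η` and the number of prime factors of `p q`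
belonging to `S`, counted with multiplicity, is even.

Part 2 (the equation `A ^ 2 x - B ^ 2 y = c`): if `A B c` is prime to `3`, or if `A`, `B` are odd and
`c` is even and not divisible by `8`, then for a suitable set `S` the number of prime factors of
`x y` in `S` is odd for all positive solutions with `x y` prime to `6`. -/
theorem result :
    (∀ ε : ℝ, 0 < ε → ∃ η : ℝ, 0 < η ∧ ∃ X₀ : ℕ, ∀ (S : Set ℕ) (c X : ℕ), X₀ ≤ X → Odd c →
      3 ∣ c → (c : ℝ) ≤ (X : ℝ) ^ η →
      (X : ℝ) ^ (1 / 2 - ε) ≤ (({q : ℕ | 1 ≤ q ∧ q ≤ X ∧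
        (∀ l : ℕ, l.Prime → l ∣ q * (4 * q + c) → (X : ℝ) ^ η < l) ∧
        Even ((q * (4 * q + c)).primeFactorsList.countP (fun l => decide (l ∈ S)))} :
          Set ℕ).ncard : ℝ)) ∧
    (∀ A B c : ℤ, (¬ 3 ∣ A * B * c ∨ (¬ 2 ∣ A * B ∧ 2 ∣ c ∧ ¬ 8 ∣ c)) → ∃ S : Set ℕ,
      ∀ x y : ℕ, 1 ≤ x → 1 ≤ y → Nat.Coprime (x * y) 6 → A ^ 2 * x - B ^ 2 * y = c →
        Odd ((x * y).primeFactorsList.countP (fun l => decide (l ∈ S)))) := by
  refine ⟨fun ε hε => ?_, fun A B c h => Pool.Agent.H505R4.obstruction_sq A B c h⟩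
  obtain ⟨η, hη, X₀, H⟩ := Pool.Agent.H505R4.main_four ε hε
  exact ⟨η, hη, X₀, fun S c X hX hc2 hc3 hcX =>
    H (Pool.Agent.H505R4.cnt S) (Pool.Agent.H505R4.cnt_mul S) c X hX hc2 hc3 hcX⟩

end Pool.Agent.Results.MP_bf63dc_nt.EvenRoughSolutions
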