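import Mathlib
import Pool.Agent.H355R2.APBQ4
import Pool.Agent.H355R2.MTBridge49

set_option autoImplicit false

/-!
# MP_bf63dc_nt: `a p - b q = c` for a fixed right-hand side `c`

Let `c ≠ 0` be fixed.  The Hardy-Littlewood conjecture (Q1) says that for every admissible pair
`(a, b)` the equation `a p - b q = c` has infinitely many prime solutions.  We prove that this holds
for a positive proportion of all pairs `(a, b)` when `c` has no prime factor `≤ 49` (for example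
`c = 1` or `c = -1`: then `T = 1` below); for every other `c ≠ 0` the same holds with the right-hand
side `c` replaced by `t c`, where `t ≤ T = T(c)` is composed of primes `≤ 49` dividing `c`.
-/

namespace Pool.Agent.Results.MP_bf63dc_nt.FixedConstant49

open Finset Pool.Agent.H355R2.APBQ

open Classical in
theorem result (c : ℤ) (hc : c ≠ 0) :
    ∃ T : ℕ, ((∀ l : ℕ, l.Prime → l ≤ 49 → ¬ (l : ℤ) ∣ c) → T = 1) ∧
      ∃ δ : ℝ, 0 < δ ∧ ∃ X₀ : ℕ, ∀ X ≥ X₀, δ * (X : ℝ) ^ 2 ≤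
        (((Icc 1 X ×ˢ Icc 1 X).filter (fun z : ℕ × ℕ =>
          ∃ t : ℕ, 0 < t ∧ t ≤ T ∧ (∀ l : ℕ, l.Prime → l ∣ t → l ≤ 49 ∧ (l : ℤ) ∣ c) ∧
          (IsCoprime (z.1 : ℤ) (z.2 : ℤ) ∧ IsCoprime (z.1 : ℤ) (t * c) ∧
            IsCoprime (z.2 : ℤ) (t * c) ∧ ¬ (Odd z.1 ∧ Odd z.2 ∧ Odd ((t : ℤ) * c))) ∧
          {w : ℕ × ℕ | w.1.Prime ∧ w.2.Prime ∧ (z.1 : ℤ) * w.1 - z.2 * w.2 = t * c}.Infinite)).card
            : ℝ) := by
  obtain ⟨T, δ, hδ, X₀, h⟩ := proportion 49 (by norm_num) Pool.Agent.H355R2.MT.maynardTao49 c hc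
  by_cases hl : ∀ l : ℕ, l.Prime → l ≤ 49 → ¬ (l : ℤ) ∣ c
  · refine ⟨1, fun _ => rfl, δ, hδ, X₀, fun X hX => (h X hX).trans ?_⟩
    refine Nat.cast_le.2 (card_le_card ?_)
    intro z hz
    rw [mem_filter] at hz ⊢
    refine ⟨hz.1, ?_⟩
    obtain ⟨t, h1, h2, h3, h4, h5⟩ := hz.2
    have ht : t = 1 := by
      by_contra hne
      obtain ⟨l, hlp, hlt⟩ := Nat.exists_prime_and_dvd hne
      exact hl l hlp (h3 l hlp hlt).1 (h3 l hlp hlt).2
    exact ⟨t, h1, ht.le, h3, h4, h5⟩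
  · refine ⟨T, fun h' => absurd h' hl, δ, hδ, X₀, fun X hX => (h X hX).trans ?_⟩
    refine Nat.cast_le.2 (card_le_card ?_)
    intro z hz
    rw [mem_filter] at hz ⊢
    refine ⟨hz.1, ?_⟩
    obtain ⟨t, h1, h2, h3, h4, h5⟩ := hz.2
    exact ⟨t, h1, h2, h3, h4, h5⟩

end Pool.Agent.Results.MP_bf63dc_nt.FixedConstant49
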