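import Mathlib
import Pool.Agent.H95R2.BG.FormPairs

/-! `DHL[49,2]` for linear forms, in the language of the equation `a p - b q = c`. -/

theorem Pool.Agent.Results.MP_bf63dc_nt.FortyNineForms.result :
    ∀ a b : Fin 49 → ℤ, (∀ i, 0 < a i) → (∀ i j, i ≠ j → a i * b j ≠ a j * b i) →
      (∀ p : ℕ, p.Prime → ∃ n : ℤ, ∀ i, ¬ (p : ℤ) ∣ a i * n + b i) →
      ∃ i j, i ≠ j ∧ ∀ ε : ℝ, 0 < ε → ∃ᶠ x : ℝ in Filter.atTop, x ^ (1 - ε) ≤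
        (Set.ncard {n : ℕ | (n : ℝ) ≤ x ∧ ∃ p q : ℕ, p.Prime ∧ q.Prime ∧ (p : ℤ) = a i * n + b i ∧
          (q : ℤ) = a j * n + b j ∧ a j * p - a i * q = a j * b i - a i * b j} : ℝ) := by
  intro a b ha hne hadm
  obtain ⟨i, j, hij, h⟩ := Pool.Agent.H95R2.BG.LF.forms49_pair a b ha hne hadm
  refine ⟨i, j, hij, fun ε hε => ?_⟩
  have hset : ∀ x : ℝ, {n : ℕ | (n : ℝ) ≤ x ∧ ∃ p q : ℕ, p.Prime ∧ q.Prime ∧ (p : ℤ) = a i * n + b i ∧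
      (q : ℤ) = a j * n + b j} = {n : ℕ | (n : ℝ) ≤ x ∧ ∃ p q : ℕ, p.Prime ∧ q.Prime ∧ (p : ℤ) = a i * n + b i ∧
      (q : ℤ) = a j * n + b j ∧ a j * p - a i * q = a j * b i - a i * b j} := by
    intro x
    ext n
    simp only [Set.mem_ofPred_eq, and_congr_right_iff]
    intro _
    constructor
    · rintro ⟨p, q, hp, hq, h1, h2⟩
      refine ⟨p, q, hp, hq, h1, h2, ?_⟩
      rw [h1, h2]
      ring
    · rintro ⟨p, q, hp, hq, h1, h2, -⟩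
      exact ⟨p, q, hp, hq, h1, h2⟩
  have := h ε hε
  simp only [hset] at this
  exact this
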