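import Mathlib
import Pool.Agent.H362R2.CM.Pairs

/-!
In every large finite set of linear forms, any five of which have no fixed prime divisor, at least a
quarter (asymptotically) of the pairs `(a x + b, a' x + b')` are such that the equation
`a p - a' q = a b' - a' b` has infinitely many solutions in primes `p, q`.
-/

namespace Pool.Agent.Results.MP_bf63dc_nt.QuarterOfPairs

theorem result : ∀ ε : ℝ, 0 < ε → ∃ N : ℕ, ∀ V : Finset (ℤ × ℤ),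
    (∀ f ∈ V, 0 < f.1) →
    (∀ f : Fin 5 → ℤ × ℤ, (∀ i, f i ∈ V) →
      ∀ p : ℕ, p.Prime → ∃ n : ℤ, ∀ i, ¬ ((p : ℤ) ∣ (f i).1 * n + (f i).2)) →
    N ≤ V.card →
    (1 / 4 - ε) * (V.card : ℝ) ^ 2 ≤
      ({x : (ℤ × ℤ) × (ℤ × ℤ) | x.1 ∈ V ∧ x.2 ∈ V ∧
        {y : ℕ × ℕ | y.1.Prime ∧ y.2.Prime ∧
          x.1.1 * (y.1 : ℤ) - x.2.1 * (y.2 : ℤ) = x.1.1 * x.2.2 - x.2.1 * x.1.2}.Infinite}.ncard : ℝ) :=
  Pool.Agent.H362R2.CM.equation_quarter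

end Pool.Agent.Results.MP_bf63dc_nt.QuarterOfPairs
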